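import Pool.Agent.H60.S36.HL

set_option autoImplicit false

open Complex Polynomial Filter Topology

namespace Pool.Agent.H60.S36

open Pool.Agent.H32.S36

theorem eq_single_mul (f : LaurentSeries ℂ) {k : ℤ} (hk : ∀ n : ℤ, n < k → f.coeff n = 0) :
    f = HahnSeries.single k 1 *
      ((PowerSeries.mk (fun n : ℕ => f.coeff (n + k)) : PowerSeries ℂ) : LaurentSeries ℂ) := by
  ext m
  rw [HahnSeries.coeff_single_mul, one_mul, PowerSeries.coeff_coe]
  split_ifs with h
  · exact hk m (by linarith)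
  · rw [PowerSeries.coeff_mk]
    congr 1
    omega

theorem coeff_mul_shift (f g : LaurentSeries ℂ) {k l : ℤ} (hk : ∀ n : ℤ, n < k → f.coeff n = 0)
    (hl : ∀ n : ℤ, n < l → g.coeff n = 0) :
    (∀ n : ℤ, n < k + l → (f * g).coeff n = 0) ∧
    ∀ n : ℕ, (f * g).coeff (n + (k + l)) =
      ∑ p ∈ Finset.HasAntidiagonal.antidiagonal n, f.coeff (p.1 + k) * g.coeff (p.2 + l) := by
  have e : f * g = HahnSeries.single (k + l) 1 *
      (((PowerSeries.mk (fun n : ℕ => f.coeff (n + k)) : PowerSeries ℂ) *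
        (PowerSeries.mk (fun n : ℕ => g.coeff (n + l)) : PowerSeries ℂ) : PowerSeries ℂ) :
          LaurentSeries ℂ) := by
    conv_lhs => rw [eq_single_mul f hk, eq_single_mul g hl]
    rw [PowerSeries.coe_mul]
    have : (HahnSeries.single (k + l) (1 : ℂ) : LaurentSeries ℂ) =
        HahnSeries.single k 1 * HahnSeries.single l 1 := by
      rw [HahnSeries.single_mul_single, mul_one]
    rw [this]
    ring
  constructor
  · intro n hn
    rw [e, HahnSeries.coeff_single_mul, one_mul, PowerSeries.coeff_coe, if_pos (by linarith)]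
  · intro n
    rw [e, HahnSeries.coeff_single_mul, one_mul, PowerSeries.coeff_coe, if_neg (by omega)]
    have : (n + (k + l) - (k + l) : ℤ).natAbs = n := by omega
    rw [this, PowerSeries.coeff_mul]
    simp only [PowerSeries.coeff_mk]

theorem m_HLM : T_HLM := by
  intro F G f g hF hG τ hτ
  obtain ⟨k, hk⟩ := exists_low f
  obtain ⟨l, hl⟩ := exists_low g
  obtain ⟨h1, h2⟩ := coeff_mul_shift f g hk hl
  rw [hasSum_nat_iff h1 (qq_ne τ)]
  have hf := HL_nat hF hk hτ
  have hg := HL_nat hG hl hτ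
  have sf := hf.summable.norm
  have sg := hg.summable.norm
  have hs := summable_norm_sum_mul_antidiagonal_of_summable_norm sf sg
  have ht := tsum_mul_tsum_eq_tsum_sum_antidiagonal_of_summable_norm sf sg
  have hsum := hs.of_norm.hasSum
  rw [← ht, hf.tsum_eq, hg.tsum_eq] at hsum
  have e1 : qq τ ^ (-k) * F τ * (qq τ ^ (-l) * G τ) = qq τ ^ (-(k + l)) * (F τ * G τ) := by
    rw [neg_add, zpow_add₀ (qq_ne τ)]
    ring
  rw [e1] at hsum
  refine hsum.congr_fun ?_
  intro n
  rw [h2 n, Finset.sum_mul]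
  apply Finset.sum_congr rfl
  intro p hp
  rw [Finset.HasAntidiagonal.mem_antidiagonal] at hp
  rw [← hp, pow_add]
  ring

/-- bound for `n (r/s)^n` -/
theorem summable_mul_pow {a : ℕ → ℝ} (ha : ∀ n, 0 ≤ a n) {r s : ℝ} (hr : 0 < r) (hrs : r < s)
    (h : Summable fun n => a n * s ^ n) : Summable fun n : ℕ => a n * ((n : ℝ) * r ^ n) := by
  have hs : 0 < s := hr.trans hrs
  have h1 : |r / s| < 1 := by
    rw [abs_of_pos (by positivity), div_lt_one hs]
    exact hrs
  have h2 := tendsto_self_mul_const_pow_of_abs_lt_one h1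
  obtain ⟨C, hC⟩ := h2.bddAbove_range
  have hC' : ∀ n : ℕ, (n : ℝ) * (r / s) ^ n ≤ C := fun n => hC ⟨n, rfl⟩
  refine Summable.of_nonneg_of_le (fun n => mul_nonneg (ha n) (by positivity)) (fun n => ?_)
    (h.mul_left C)
  have h3 := mul_le_mul_of_nonneg_right (hC' n) (mul_nonneg (ha n) (pow_nonneg hs.le n))
  calc a n * ((n : ℝ) * r ^ n) = (n : ℝ) * (r / s) ^ n * (a n * s ^ n) := by
        rw [div_pow]; field_simp
    _ ≤ _ := h3

theorem qq_hasDerivAt (τ : ℂ) : HasDerivAt qq (2 * Real.pi * Complex.I * qq τ) τ := by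
  unfold qq
  have h := ((hasDerivAt_id τ).const_mul (2 * Real.pi * Complex.I : ℂ)).cexp
  simp only [id, mul_one] at h
  exact h.congr_deriv (by ring)

theorem main_deriv {F : ℂ → ℂ} {f : LaurentSeries ℂ} (hF : HL F f) {k : ℤ}
    (hk : ∀ n : ℤ, n < k → f.coeff n = 0) {τ : ℂ} (hτ : 0 < τ.im) :
    ∃ D : ℂ, HasSum (fun n : ℕ => (n : ℂ) * f.coeff (n + k) * qq τ ^ n) D ∧
      HasDerivAt (fun τ => qq τ ^ (-k) * F τ) (2 * Real.pi * Complex.I * D) τ := by
  set c : ℝ := τ.im / 2 with hc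
  have hc0 : 0 < c := by positivity
  set t : Set ℂ := {z | c < z.im} with ht
  have hto : IsOpen t := isOpen_lt continuous_const Complex.continuous_im
  have htc : IsPreconnected t := by
    have : Convex ℝ t := by
      have h : t = Complex.imLm ⁻¹' (Set.Ioi c) := by
        ext z; simp [ht, Complex.imLm_coe]
      rw [h]
      exact (convex_Ioi c).linear_preimage _
    exact this.isPreconnected
  have hτt : τ ∈ t := by
    show c < τ.im
    rw [hc]; linarith
  -- the bound
  set τ1 : ℂ := Complex.I * ((c / 2 : ℝ) : ℂ) with hτ1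
  have hτ1im : 0 < τ1.im := by
    rw [hτ1]
    simp
    linarith
  have h1 := (HL_nat hF hk hτ1im).summable.norm
  set s : ℝ := ‖qq τ1‖ with hs
  have hs1 : Summable fun n : ℕ => ‖f.coeff (n + k)‖ * s ^ n := by
    simpa [norm_mul, norm_pow] using h1
  set r : ℝ := Real.exp (-2 * Real.pi * c) with hr
  have hr0 : 0 < r := Real.exp_pos _
  have hrs : r < s := by
    rw [hs, qq_norm, hr, Real.exp_lt_exp, hτ1]
    simp
    have := Real.pi_pos
    nlinarith [mul_pos this hc0]
  have hsum := summable_mul_pow (fun n => norm_nonneg (f.coeff (n + k))) hr0 hrs hs1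
  set u : ℕ → ℝ := fun n => 2 * Real.pi * (‖f.coeff (n + k)‖ * ((n : ℝ) * r ^ n)) with hu
  have hus : Summable u := hsum.mul_left _
  set g : ℕ → ℂ → ℂ := fun n z => f.coeff (n + k) * qq z ^ n with hg
  set g' : ℕ → ℂ → ℂ := fun n z => f.coeff (n + k) * (n * qq z ^ (n - 1) *
    (2 * Real.pi * Complex.I * qq z)) with hg'
  have hd : ∀ n y, y ∈ t → HasDerivAt (g n) (g' n y) y := by
    intro n y _
    have := ((qq_hasDerivAt y).pow n).const_mul (f.coeff (n + k))
    exact this
  have hqy : ∀ y, y ∈ t → ‖qq y‖ ≤ r := by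
    intro y hy
    rw [qq_norm, hr, Real.exp_le_exp]
    have hy' : c < y.im := hy
    have := Real.pi_pos
    nlinarith [mul_pos this (sub_pos.2 hy')]
  have hg'e : ∀ n y, g' n y = 2 * Real.pi * Complex.I * ((n : ℂ) * f.coeff (n + k) * qq y ^ n) := by
    intro n y
    rw [hg']
    rcases n with _ | n
    · simp
    · simp only [Nat.add_sub_cancel]
      push_cast
      ring
  have hb : ∀ n y, y ∈ t → ‖g' n y‖ ≤ u n := by
    intro n y hy
    rw [hg'e, hu]
    have hpi := Real.pi_pos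
    have e : ‖(2 * Real.pi * Complex.I * ((n : ℂ) * f.coeff (n + k) * qq y ^ n) : ℂ)‖ =
        2 * Real.pi * (‖f.coeff (n + k)‖ * ((n : ℝ) * ‖qq y‖ ^ n)) := by
      rw [norm_mul, norm_mul, norm_mul, norm_mul, norm_mul, norm_pow, Complex.norm_I,
        Complex.norm_real, Real.norm_eq_abs, abs_of_pos hpi, Complex.norm_natCast]
      simp
      ring
    rw [e]
    have : ‖qq y‖ ^ n ≤ r ^ n := pow_le_pow_left₀ (norm_nonneg _) (hqy y hy) n
    exact mul_le_mul_of_nonneg_left (mul_le_mul_of_nonneg_left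
      (mul_le_mul_of_nonneg_left this (Nat.cast_nonneg n)) (norm_nonneg _)) (by positivity)
  have hg0 : Summable fun n => g n τ := (HL_nat hF hk hτ).summable
  have key := hasDerivAt_tsum_of_isPreconnected hus hto htc hd hb hτt hg0 hτt
  have hD : Summable fun n : ℕ => (n : ℂ) * f.coeff (n + k) * qq τ ^ n := by
    have h2 : Summable fun n => g' n τ := Summable.of_norm_bounded hus (fun n => hb n τ hτt)
    simp only [hg'e] at h2
    have h3 : (2 * Real.pi * Complex.I : ℂ) ≠ 0 := Complex.two_pi_I_ne_zero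
    exact (summable_mul_left_iff h3).1 h2
  refine ⟨_, hD.hasSum, ?_⟩
  rw [← tsum_mul_left]
  simp only [hg'e] at key
  refine key.congr_of_eventuallyEq ?_
  filter_upwards [hto.mem_nhds hτt] with z hz
  have hz' : 0 < z.im := hc0.trans hz
  exact (HL_nat hF hk hz').tsum_eq.symm

theorem m_HLD : T_HLD := by
  intro F f hF
  obtain ⟨k, hk⟩ := exists_low f
  have main : ∀ τ : ℂ, 0 < τ.im → ∃ D : ℂ,
      HasSum (fun n : ℕ => (n : ℂ) * f.coeff (n + k) * qq τ ^ n) D ∧
      HasDerivAt F (2 * Real.pi * Complex.I * ((k : ℂ) * F τ + qq τ ^ k * D)) τ := by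
    intro τ hτ
    obtain ⟨D, hD, hd⟩ := main_deriv hF hk hτ
    refine ⟨D, hD, ?_⟩
    have hz : HasDerivAt (fun z => qq z ^ k)
        ((k : ℂ) * qq τ ^ (k - 1) * (2 * Real.pi * Complex.I * qq τ)) τ := by
      have := (hasDerivAt_zpow k (qq τ) (Or.inl (qq_ne τ))).comp τ (qq_hasDerivAt τ)
      exact this
    have h2 := hz.mul hd
    have h3 : (fun z => qq z ^ k * (qq z ^ (-k) * F z)) = F := by
      ext z
      rw [← mul_assoc, ← zpow_add₀ (qq_ne z), add_neg_cancel, zpow_zero, one_mul]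
    have h4 : HasDerivAt F ((k : ℂ) * qq τ ^ (k - 1) * (2 * Real.pi * Complex.I * qq τ) *
        (qq τ ^ (-k) * F τ) + qq τ ^ k * (2 * Real.pi * Complex.I * D)) τ := by
      have h5 : HasDerivAt (fun z => qq z ^ k * (qq z ^ (-k) * F z)) _ τ := h2
      rw [h3] at h5
      exact h5
    refine h4.congr_deriv ?_
    have e1 : qq τ ^ (k - 1) * qq τ = qq τ ^ k := by
      rw [← zpow_add_one₀ (qq_ne τ)]
      congr 1
      ring
    have e2 : qq τ ^ k * qq τ ^ (-k) = 1 := by
      rw [← zpow_add₀ (qq_ne τ), add_neg_cancel, zpow_zero]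
    calc (k : ℂ) * qq τ ^ (k - 1) * (2 * Real.pi * Complex.I * qq τ) * (qq τ ^ (-k) * F τ) +
          qq τ ^ k * (2 * Real.pi * Complex.I * D) =
        2 * Real.pi * Complex.I * ((k : ℂ) * (qq τ ^ (k - 1) * qq τ) * qq τ ^ (-k) * F τ +
          qq τ ^ k * D) := by ring
      _ = _ := by
        rw [e1, mul_assoc (k : ℂ), e2, mul_one]
  refine ⟨fun τ hτ => ?_, fun τ hτ => ?_⟩
  · obtain ⟨D, _, hd⟩ := main τ hτ
    exact hd.differentiableAt
  · obtain ⟨D, hD, hd⟩ := main τ hτ
    have hk' : ∀ n : ℤ, n < k → (th f).coeff n = 0 := by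
      intro n hn
      rw [th_coeff, hk n hn, mul_zero]
    rw [hasSum_nat_iff hk' (qq_ne τ)]
    have e : DD F τ = (k : ℂ) * F τ + qq τ ^ k * D := by
      unfold DD
      rw [hd.deriv, ← mul_assoc, inv_mul_cancel₀ Complex.two_pi_I_ne_zero, one_mul]
    rw [e]
    have h1 := ((HL_nat hF hk hτ).mul_left (k : ℂ)).add hD
    have e2 : qq τ ^ (-k) * ((k : ℂ) * F τ + qq τ ^ k * D) =
        (k : ℂ) * (qq τ ^ (-k) * F τ) + D := by
      have e3 : qq τ ^ (-k) * qq τ ^ k = 1 := by
        rw [← zpow_add₀ (qq_ne τ), neg_add_cancel, zpow_zero]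
      calc _ = (k : ℂ) * (qq τ ^ (-k) * F τ) + (qq τ ^ (-k) * qq τ ^ k) * D := by ring
        _ = _ := by rw [e3, one_mul]
    rw [e2]
    refine h1.congr_fun ?_
    intro n
    rw [th_coeff]
    push_cast
    ring

end Pool.Agent.H60.S36

namespace Pool.Agent.H32.S36

theorem m_HLT : T_HLT := Pool.Agent.H60.S36.m_HLT
theorem m_HLV : T_HLV := Pool.Agent.H60.S36.m_HLV
theorem m_HLL : T_HLL := Pool.Agent.H60.S36.m_HLL
theorem m_HLU : T_HLU := Pool.Agent.H60.S36.m_HLU
theorem m_HLM : T_HLM := Pool.Agent.H60.S36.m_HLM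
theorem m_HLD : T_HLD := Pool.Agent.H60.S36.m_HLD

end Pool.Agent.H32.S36
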