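import Pool.Agent.H32.S36.Targets

set_option autoImplicit false

open Complex Polynomial Filter Topology

namespace Pool.Agent.H60.S36

open Pool.Agent.H32.S36

theorem qq_ne (τ : ℂ) : qq τ ≠ 0 := Complex.exp_ne_zero _

theorem qq_norm (τ : ℂ) : ‖qq τ‖ = Real.exp (-2 * Real.pi * τ.im) := by
  unfold qq
  rw [Complex.norm_exp]
  congr 1
  simp [mul_assoc]

theorem qq_norm_lt {τ : ℂ} (h : 0 < τ.im) : ‖qq τ‖ < 1 := by
  rw [qq_norm, Real.exp_lt_one_iff]
  have := Real.pi_pos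
  nlinarith [mul_pos this h]

theorem exists_low (f : LaurentSeries ℂ) : ∃ k : ℤ, ∀ n : ℤ, n < k → f.coeff n = 0 := by
  by_cases h0 : f = 0
  · exact ⟨0, fun n _ => by rw [h0]; rfl⟩
  · exact ⟨f.order, fun n hn => HahnSeries.coeff_eq_zero_of_lt_order hn⟩

theorem shift_inj (k : ℤ) : Function.Injective (fun n : ℕ => (n : ℤ) + k) := by
  intro a b h
  simp only at h
  omega

/-- passing to an `ℕ`-indexed series -/
theorem hasSum_nat_iff {c : ℤ → ℂ} {k : ℤ} (hk : ∀ n : ℤ, n < k → c n = 0) {q S : ℂ} (hq : q ≠ 0) :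
    HasSum (fun n : ℤ => c n * q ^ n) S ↔
      HasSum (fun n : ℕ => c (n + k) * q ^ n) (q ^ (-k) * S) := by
  have h1 : HasSum (fun n : ℤ => c n * q ^ n) S ↔
      HasSum ((fun n : ℤ => c n * q ^ n) ∘ fun n : ℕ => (n : ℤ) + k) S := by
    symm
    apply Function.Injective.hasSum_iff (shift_inj k)
    intro n hn
    have : n < k := by
      by_contra hc
      apply hn
      exact ⟨(n - k).toNat, by simp only; omega⟩
    rw [hk n this, zero_mul]
  rw [h1]
  have hk0 : q ^ (-k) ≠ 0 := zpow_ne_zero _ hq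
  rw [← hasSum_mul_left_iff hk0]
  have e : (fun n : ℕ => q ^ (-k) * ((fun n : ℤ => c n * q ^ n) ∘ fun n : ℕ => (n : ℤ) + k) n) =
      fun n : ℕ => c (n + k) * q ^ n := by
    ext n
    simp only [Function.comp]
    rw [zpow_add₀ hq, zpow_natCast, zpow_neg]
    field_simp
  rw [e]

theorem HL_nat {F : ℂ → ℂ} {f : LaurentSeries ℂ} (hF : HL F f) {k : ℤ}
    (hk : ∀ n : ℤ, n < k → f.coeff n = 0) {τ : ℂ} (hτ : 0 < τ.im) :
    HasSum (fun n : ℕ => f.coeff (n + k) * qq τ ^ n) (qq τ ^ (-k) * F τ) :=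
  (hasSum_nat_iff hk (qq_ne τ)).1 (hF τ hτ)

theorem m_HLT : T_HLT := by
  intro F f c hF τ hτ
  have h := hF (τ + c) (by simpa using hτ)
  refine h.congr_fun ?_
  intro n
  rw [tw_coeff]
  have : qq (τ + c) = Complex.exp (2 * Real.pi * Complex.I * c) * qq τ := by
    unfold qq
    rw [← Complex.exp_add]
    congr 1
    ring
  rw [this, mul_zpow]
  ring

theorem m_HLV : T_HLV := by
  intro F f d hd hF τ hτ
  have him : 0 < ((d : ℂ) * τ).im := by
    have : (0 : ℝ) < d := by exact_mod_cast hd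
    simpa using mul_pos this hτ
  have h := hF (d * τ) him
  have hq : qq (d * τ) = qq τ ^ d := by
    unfold qq
    rw [← Complex.exp_nat_mul]
    congr 1
    ring
  have hd' : (d : ℤ) ≠ 0 := by exact_mod_cast hd.ne'
  have hinj : Function.Injective (fun n : ℤ => (d : ℤ) * n) := fun a b hab =>
    mul_left_cancel₀ hd' hab
  rw [← Function.Injective.hasSum_iff hinj]
  · refine h.congr_fun ?_
    intro n
    simp only [Function.comp]
    rw [VV_coeff_mul, hq, ← zpow_natCast, ← zpow_mul]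
  · intro n hn
    rw [VV_coeff_of_not_dvd, zero_mul]
    rintro ⟨m, rfl⟩
    exact hn ⟨m, rfl⟩

theorem qq_I_norm : ‖qq Complex.I‖ = Real.exp (-2 * Real.pi) := by
  rw [qq_norm]; simp

theorem m_HLL : T_HLL := by
  intro F f k hF hk ε hε
  have h1 := HL_nat hF hk (τ := Complex.I) (by simp)
  have hs : Summable (fun n : ℕ => ‖f.coeff (n + k)‖ * ‖qq Complex.I‖ ^ n) := by
    have := h1.summable.norm
    simpa [norm_mul, norm_pow] using this
  set r : ℝ := ‖qq Complex.I‖ with hr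
  have hr0 : 0 < r := by rw [hr]; exact norm_pos_iff.2 (qq_ne _)
  set S : ℝ := ∑' n : ℕ, ‖f.coeff (n + k)‖ * r ^ n with hS
  have hS0 : 0 ≤ S := tsum_nonneg fun n => by positivity
  have hη : 0 < r * ε / (2 * (S + 1)) := by positivity
  set η : ℝ := min r (r * ε / (2 * (S + 1))) with hηd
  have hη0 : 0 < η := lt_min hr0 hη
  refine ⟨-Real.log η / (2 * Real.pi), ?_⟩
  intro τ hτ hY
  have hpi := Real.pi_pos
  have hq : ‖qq τ‖ ≤ η := by
    rw [qq_norm, ← Real.le_log_iff_exp_le hη0]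
    rw [div_le_iff₀ (by positivity)] at hY
    linarith
  have h2 := HL_nat hF hk hτ
  have h3 : HasSum (fun n : ℕ => f.coeff ((n + 1 : ℕ) + k) * qq τ ^ (n + 1))
      (qq τ ^ (-k) * F τ - f.coeff k) := by
    have := (hasSum_nat_add_iff' 1).2 h2
    simpa using this
  have hqr : ‖qq τ‖ ≤ r := hq.trans (min_le_left _ _)
  have hb : ∀ n : ℕ, ‖f.coeff ((n + 1 : ℕ) + k) * qq τ ^ (n + 1)‖ ≤
      ‖qq τ‖ / r * (‖f.coeff ((n + 1 : ℕ) + k)‖ * r ^ (n + 1)) := by
    intro n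
    rw [norm_mul, norm_pow]
    have h4 : ‖qq τ‖ ^ (n + 1) ≤ ‖qq τ‖ / r * r ^ (n + 1) := by
      have h5 : ‖qq τ‖ ^ n ≤ r ^ n := pow_le_pow_left₀ (norm_nonneg _) hqr n
      calc ‖qq τ‖ ^ (n + 1) = ‖qq τ‖ * ‖qq τ‖ ^ n := by ring
        _ ≤ ‖qq τ‖ * r ^ n := mul_le_mul_of_nonneg_left h5 (norm_nonneg _)
        _ = ‖qq τ‖ / r * r ^ (n + 1) := by field_simp; ring
    calc ‖f.coeff ((n + 1 : ℕ) + k)‖ * ‖qq τ‖ ^ (n + 1) ≤
        ‖f.coeff ((n + 1 : ℕ) + k)‖ * (‖qq τ‖ / r * r ^ (n + 1)) :=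
          mul_le_mul_of_nonneg_left h4 (norm_nonneg _)
      _ = _ := by ring
  have hs2 : Summable (fun n : ℕ => ‖f.coeff ((n + 1 : ℕ) + k)‖ * r ^ (n + 1)) :=
    (summable_nat_add_iff (f := fun n : ℕ => ‖f.coeff ((n : ℕ) + k)‖ * r ^ n) 1).2 hs
  have hle : ∑' n : ℕ, ‖f.coeff ((n + 1 : ℕ) + k)‖ * r ^ (n + 1) ≤ S := by
    have := hs.sum_add_tsum_nat_add 1
    have h0 : 0 ≤ ∑ i ∈ Finset.range 1, ‖f.coeff ((i : ℕ) + k)‖ * r ^ i :=
      Finset.sum_nonneg fun i _ => by positivity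
    rw [hS]
    linarith
  rw [← h3.tsum_eq]
  calc ‖∑' n : ℕ, f.coeff ((n + 1 : ℕ) + k) * qq τ ^ (n + 1)‖
      ≤ ∑' n : ℕ, ‖qq τ‖ / r * (‖f.coeff ((n + 1 : ℕ) + k)‖ * r ^ (n + 1)) :=
        tsum_of_norm_bounded (hs2.mul_left _).hasSum hb
    _ = ‖qq τ‖ / r * ∑' n : ℕ, ‖f.coeff ((n + 1 : ℕ) + k)‖ * r ^ (n + 1) := tsum_mul_left
    _ ≤ ‖qq τ‖ / r * S := mul_le_mul_of_nonneg_left hle (by positivity)
    _ ≤ (r * ε / (2 * (S + 1))) / r * S := by
        apply mul_le_mul_of_nonneg_right _ hS0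
        exact div_le_div_of_nonneg_right (hq.trans (min_le_right _ _)) hr0.le
    _ < ε := by
        have : (r * ε / (2 * (S + 1))) / r * S = ε * (S / (2 * (S + 1))) := by field_simp
        rw [this]
        have h6 : S / (2 * (S + 1)) < 1 := by
          rw [div_lt_one (by positivity)]
          linarith
        nlinarith

theorem m_HLU : T_HLU := by
  intro F f g hf hg
  have h : HL (fun _ => 0) (f - g) := (hf.sub hg).congr (fun τ _ => sub_self _)
  by_contra hne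
  have hd : f - g ≠ 0 := sub_ne_zero.2 hne
  have h0 : (f - g).coeff (f - g).order ≠ 0 := HahnSeries.coeff_order_eq_zero.not.2 hd
  have hL := m_HLL (fun _ => 0) (f - g) (f - g).order h
    (fun n hn => HahnSeries.coeff_eq_zero_of_lt_order hn) ‖(f - g).coeff (f - g).order‖
    (norm_pos_iff.2 h0)
  obtain ⟨Y, hY⟩ := hL
  have := hY (Complex.I * ((max Y 1 : ℝ) : ℂ)) (by
    have : (0 : ℝ) < max Y 1 := lt_max_of_lt_right one_pos
    simpa using this) (by
    simp)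
  rw [mul_zero, zero_sub, norm_neg] at this
  exact lt_irrefl _ this

end Pool.Agent.H60.S36
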